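import Pool.Agent.H174.GP.StD
import Pool.Agent.H174.GP.StA

/-!
# Project GP (helper174): counting dominating pairs of partitions by the two Durfee sizes
-/

set_option autoImplicit false

open MeasureTheory ProbabilityTheory Finset

namespace Pool.Agent.H734.GP174

open Pool.Agent.H174.GP

/-- the data of the pairs -/
def Y (n d d' : ℕ) : Set (((Fin d → ℕ) × (Fin d → ℕ)) × ((Fin d' → ℕ) × (Fin d' → ℕ))) :=
  {q | d ^ 2 + ∑ i : Fin d, ((i : ℕ) + 1) * (q.1.1 i + q.1.2 i) = n ∧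
    d' ^ 2 + ∑ i : Fin d', ((i : ℕ) + 1) * (q.2.1 i + q.2.2 i) = n ∧
    DomM (toP d' q.2.1 q.2.2) (toP d q.1.1 q.1.2)}

theorem toP_pos {d : ℕ} {g h : Fin d → ℕ} {x : ℕ} (hx : x ∈ toP d g h) : 0 < x := by
  unfold toP at hx
  rw [Multiset.mem_add] at hx
  rcases hx with hx | hx
  · rw [Multiset.mem_map] at hx
    obtain ⟨i, -, rfl⟩ := hx
    have : 0 < d := lt_of_le_of_lt (Nat.zero_le _) i.2
    unfold topP
    omega
  · rw [Multiset.mem_sum] at hx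
    obtain ⟨l, -, hx⟩ := hx
    rw [Multiset.eq_of_mem_replicate hx]
    omega

/-- the partition attached to the data -/
def toPart (h1 : S_toPsum) (n d : ℕ) (g h : Fin d → ℕ)
    (hs : d ^ 2 + ∑ i : Fin d, ((i : ℕ) + 1) * (g i + h i) = n) : Nat.Partition n :=
  ⟨toP d g h, fun hi => toP_pos hi, (h1 d g h).trans hs⟩

/-- the pair attached to the data -/
def toPair (h1 : S_toPsum) (n d d' : ℕ) (x : Y n d d') :
    {pq : Nat.Partition n × Nat.Partition n // DomM pq.1.parts pq.2.parts} :=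
  ⟨(toPart h1 n d' x.1.2.1 x.1.2.2 x.2.2.1, toPart h1 n d x.1.1.1 x.1.1.2 x.2.1), x.2.2.2⟩

theorem exists_data (h1 : S_toPsum) (h3 : S_toPsurj) {n : ℕ} (p : Nat.Partition n) :
    ∃ (d : ℕ) (g h : Fin d → ℕ), d < n + 1 ∧
      d ^ 2 + ∑ i : Fin d, ((i : ℕ) + 1) * (g i + h i) = n ∧ toP d g h = p.parts := by
  obtain ⟨d, g, h, hs⟩ := h3 p.parts (fun x hx => p.parts_pos hx)
  have hsum : d ^ 2 + ∑ i : Fin d, ((i : ℕ) + 1) * (g i + h i) = n := by
    rw [← h1 d g h, hs]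
    exact p.parts_sum
  have hd : d < n + 1 := by
    have : d ≤ d ^ 2 := Nat.le_self_pow (by norm_num) d
    omega
  exact ⟨d, g, h, hd, hsum, hs⟩

theorem gp_countd (h1 : S_toPsum) (h2 : S_toPinj) (h3 : S_toPsurj) :
    Pool.Agent.H174.GP.S_CountD := by
  classical
  intro n
  have hinj : ∀ x y : (Σ a : Fin (n + 1) × Fin (n + 1), Y n (a.1 : ℕ) (a.2 : ℕ)),
      (toPair h1 n x.1.1 x.1.2 x.2).1.1.parts = (toPair h1 n y.1.1 y.1.2 y.2).1.1.parts →
      (toPair h1 n x.1.1 x.1.2 x.2).1.2.parts = (toPair h1 n y.1.1 y.1.2 y.2).1.2.parts →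
      x = y := by
    rintro ⟨⟨⟨d, hd⟩, ⟨e, he⟩⟩, ⟨⟨⟨g, h⟩, ⟨k, l⟩⟩, hx⟩⟩
      ⟨⟨⟨d', hd'⟩, ⟨e', he'⟩⟩, ⟨⟨⟨g', h'⟩, ⟨k', l'⟩⟩, hx'⟩⟩ hab hab'
    have h4 := h2 e e' k l k' l' hab
    have h5 := h2 d d' g h g' h' hab'
    rw [Sigma.mk.injEq] at h4 h5
    obtain ⟨h6, h7⟩ := h4
    obtain ⟨h8, h9⟩ := h5
    subst h6
    subst h8
    have h10 := eq_of_heq h7
    have h11 := eq_of_heq h9
    rw [Prod.mk.injEq] at h10 h11
    obtain ⟨rfl, rfl⟩ := h10
    obtain ⟨rfl, rfl⟩ := h11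
    rfl
  have hfin : ∀ a : Fin (n + 1) × Fin (n + 1), Finite (Y n (a.1 : ℕ) (a.2 : ℕ)) := by
    intro a
    refine Finite.of_injective (fun x => (toPair h1 n a.1 a.2 x)) ?_
    intro x y hxy
    have h4 := hinj ⟨a, x⟩ ⟨a, y⟩ (congrArg (fun z => z.1.1.parts) hxy)
      (congrArg (fun z => z.1.2.parts) hxy)
    rw [Sigma.mk.injEq] at h4
    exact eq_of_heq h4.2
  have hcard : Nat.card (Σ a : Fin (n + 1) × Fin (n + 1), Y n (a.1 : ℕ) (a.2 : ℕ)) =
      Nat.card {pq : Nat.Partition n × Nat.Partition n // DomM pq.1.parts pq.2.parts} := by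
    refine Nat.card_eq_of_bijective
      (fun x : (Σ a : Fin (n + 1) × Fin (n + 1), Y n (a.1 : ℕ) (a.2 : ℕ)) =>
        toPair h1 n x.1.1 x.1.2 x.2) ⟨?_, ?_⟩
    · intro x y hxy
      exact hinj x y (congrArg (fun z => z.1.1.parts) hxy) (congrArg (fun z => z.1.2.parts) hxy)
    · rintro ⟨⟨p, q⟩, hpq⟩
      obtain ⟨e, k, l, he, hks, hk⟩ := exists_data h1 h3 p
      obtain ⟨d, g, h, hd, hgs, hg⟩ := exists_data h1 h3 q
      refine ⟨⟨(⟨d, hd⟩, ⟨e, he⟩), ⟨((g, h), (k, l)), hgs, hks, ?_⟩⟩, ?_⟩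
      · show DomM (toP e k l) (toP d g h)
        rw [hk, hg]
        exact hpq
      · apply Subtype.ext
        apply Prod.ext
        · apply Nat.Partition.ext
          exact hk
        · apply Nat.Partition.ext
          exact hg
  rw [← hcard, Nat.card_sigma, Fintype.sum_prod_type, Finset.sum_range]
  refine Finset.sum_congr rfl fun d _ => ?_
  rw [Finset.sum_range]
  rfl

end Pool.Agent.H734.GP174
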